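import Pool.Agent.V1198.FBL2

/-!
# The free Banach lattice over an `L_1`-predual with octahedral norm has octahedral norm

A family of functionals in `L_1(μ)` is approximated by combinations of normalized indicator
functions. These are moved so that they take prescribed values at a vector `x` that is almost
`ℓ_1`-orthogonal to the relevant part of `E`. The element of `FBL[E]` is a sum of pieces
`± (|δ_x| - K |δ_{x' - r x}|)^+`, which gives the right signs.
-/

set_option autoImplicit false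

noncomputable section

open Filter Topology Pool.Agent.V1198.FB MeasureTheory

namespace Pool.Agent.Results.MP_93c18e_an.Predual

/-! ### Approximation in `L_1` -/

section L1

variable {Ω : Type*} [MeasurableSpace Ω] {μ : Measure Ω}

theorem sum_indicator_ae {V : Type*} (R : Finset V) {A : V → Set Ω}
    (hA : ∀ v, MeasurableSet (A v)) (hμ : ∀ v, μ (A v) ≠ ⊤) (c : V → ℝ) :
    ((∑ v ∈ R, c v • indicatorConstLp 1 (hA v) (hμ v) (1 : ℝ) : Lp ℝ 1 μ) : Ω → ℝ) =ᵐ[μ]
      fun ω => ∑ v ∈ R, c v * (A v).indicator (fun _ => (1 : ℝ)) ω := by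
  have h1 := Lp.coeFn_finsetSum (μ := μ) R fun v => c v • indicatorConstLp 1 (hA v) (hμ v) (1 : ℝ)
  refine h1.trans ?_
  have h2 : ∀ᵐ ω ∂μ, ∀ v ∈ R, (c v • indicatorConstLp 1 (hA v) (hμ v) (1 : ℝ) : Lp ℝ 1 μ) ω =
      c v * (A v).indicator (fun _ => (1 : ℝ)) ω := by
    refine (Filter.eventually_all_finset R).mpr fun v _ => ?_
    have h3 := Lp.coeFn_smul (c v) (indicatorConstLp 1 (hA v) (hμ v) (1 : ℝ) : Lp ℝ 1 μ)
    have h4 : (indicatorConstLp 1 (hA v) (hμ v) (1 : ℝ) : Lp ℝ 1 μ) =ᵐ[μ]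
      (A v).indicator fun _ => (1 : ℝ) := indicatorConstLp_coeFn
    filter_upwards [h3, h4] with ω h5 h6
    rw [h5, Pi.smul_apply, h6, smul_eq_mul]
  filter_upwards [h2] with ω hω
  rw [Finset.sum_apply]
  exact Finset.sum_congr rfl fun v hv => hω v hv

end L1

section Rep

variable {E : Type*} [NormedAddCommGroup E] [NormedSpace ℝ E] {Ω : Type*} [MeasurableSpace Ω]
  {μ : Measure Ω}

theorem norm_sum_smul_le {m : ℕ} {φ : Fin m → Dual' E} (hφ : Adm φ) {θ : Fin m → ℝ}
    (hθ : ∀ j, |θ j| ≤ 1) : ‖∑ j, θ j • φ j‖ ≤ 1 := by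
  have h1 : ∀ x : E, ‖x‖ ≤ 1 → |(∑ j, θ j • φ j) x| ≤ 1 := fun x hx => by
    rw [_root_.sum_apply]
    refine (Finset.abs_sum_le_sum_abs _ _).trans (le_trans (Finset.sum_le_sum fun j _ => ?_)
      (hφ x hx))
    rw [_root_.smul_apply, smul_eq_mul, abs_mul]
    exact mul_le_of_le_one_left (abs_nonneg _) (hθ j)
  refine ContinuousLinearMap.opNorm_le_bound _ zero_le_one fun x => ?_
  by_cases hx : x = 0
  · rw [hx, map_zero, norm_zero, norm_zero, mul_zero]
  · have hn : 0 < ‖x‖ := norm_pos_iff.mpr hx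
    have h2 := h1 (‖x‖⁻¹ • x) (exists_unit_of_ne hx).le
    rw [map_smul, smul_eq_mul, abs_mul, abs_of_pos (inv_pos.mpr hn), inv_mul_le_iff₀ hn,
      mul_one] at h2
    rw [one_mul, Real.norm_eq_abs]
    exact h2

theorem Adm.norm_le_one {m : ℕ} {φ : Fin m → Dual' E} (hφ : Adm φ) (j : Fin m) : ‖φ j‖ ≤ 1 := by
  classical
  have h1 := norm_sum_smul_le hφ (θ := fun i => if i = j then 1 else 0) fun i => by
    split_ifs <;> norm_num
  have h2 : ∑ i, (if i = j then (1 : ℝ) else 0) • φ i = φ j := by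
    rw [Finset.sum_eq_single j]
    · rw [if_pos rfl, one_smul]
    · intro i _ hi; rw [if_neg hi, zero_smul]
    · exact fun h => absurd (Finset.mem_univ j) h
  rwa [h2] at h1

/-- The finite representation. -/
theorem exists_rep (U : (E →L[ℝ] ℝ) ≃ₗᵢ[ℝ] Lp ℝ 1 μ) {m : ℕ} {φ : Fin m → Dual' E} (hφ : Adm φ)
    {δ : ℝ} (hδ : 0 < δ) : ∃ (ι : Type) (_ : Fintype ι) (g : ι → Dual' E) (w : ι → Fin m → ℝ),
      (∀ v, ‖g v‖ ≤ 1) ∧
      (∀ η : ι → ℝ, (∀ v, |η v| ≤ 1) → ∑ j, |∑ v, η v * w v j| ≤ 1 + δ) ∧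
      ∀ j, ‖φ j - ∑ v, w v j • g v‖ ≤ δ := by
  classical
  set X : Ω → Fin m → ℝ := fun ω j => (U (φ j) : Ω → ℝ) ω with hX
  have hXint : ∀ j, Integrable (fun ω => X ω j) μ := fun j => L1.integrable_coeFn (U (φ j))
  have hXmem : MemLp X 1 μ := memLp_pi_iff.mpr fun j => memLp_one_iff_integrable.mpr (hXint j)
  set δ' := δ / (m + 1) with hδ'
  have hδ'0 : 0 < δ' := by positivity
  obtain ⟨S, hS, hSmem⟩ := hXmem.exists_simpleFunc_eLpNorm_sub_lt ENNReal.one_ne_top
    (ε := ENNReal.ofReal δ') (by positivity)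
  have hSint : Integrable S μ := memLp_one_iff_integrable.mp hSmem
  have hXSint : Integrable (X - ⇑S) μ := (memLp_one_iff_integrable.mp hXmem).sub hSint
  have hXS : ∫ ω, ‖X ω - S ω‖ ∂μ ≤ δ' := by
    have h1 := hS.le
    rw [eLpNorm_one_eq_lintegral_enorm] at h1
    have h2 : ∫ ω, ‖(X - ⇑S) ω‖ ∂μ = (∫⁻ ω, ‖(X - ⇑S) ω‖ₑ ∂μ).toReal :=
      integral_norm_eq_lintegral_enorm hXSint.aestronglyMeasurable
    have h3 : ∫ ω, ‖X ω - S ω‖ ∂μ = ∫ ω, ‖(X - ⇑S) ω‖ ∂μ := rfl
    rw [h3, h2]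
    exact ENNReal.toReal_le_of_le_ofReal hδ'0.le h1
  -- the sets
  set R : Finset (Fin m → ℝ) := S.range.filter fun v => v ≠ 0 with hR
  let A : R → Set Ω := fun v => S ⁻¹' {v.1}
  have hAm : ∀ v, MeasurableSet (A v) := fun v => S.measurableSet_fiber _
  have hAμ : ∀ v : R, μ (A v) ≠ ⊤ := fun v =>
    (SimpleFunc.measure_preimage_lt_top_of_integrable S hSint
      (Finset.mem_filter.mp v.2).2).ne
  let I : R → Lp ℝ 1 μ := fun v => indicatorConstLp 1 (hAm v) (hAμ v) (1 : ℝ)
  have hIn : ∀ v, ‖I v‖ = μ.real (A v) := fun v => by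
    have := norm_indicatorConstLp (p := 1) (hs := hAm v) (hμs := hAμ v) (c := (1 : ℝ))
      one_ne_zero ENNReal.one_ne_top
    simpa using this
  -- sums of the indicators
  have hpt : ∀ c : (Fin m → ℝ) → ℝ, c 0 = 0 → ∀ ω,
      ∑ v : R, c v.1 * (A v).indicator (fun _ => (1 : ℝ)) ω = c (S ω) := by
    intro c hc ω
    have h1 : ∀ v : R, c v.1 * (A v).indicator (fun _ => (1 : ℝ)) ω =
        if v.1 = S ω then c (S ω) else 0 := fun v => by
      by_cases h : v.1 = S ω
      · rw [if_pos h, Set.indicator_of_mem (show ω ∈ A v from h.symm), mul_one, h]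
      · rw [if_neg h, Set.indicator_of_notMem (show ω ∉ A v from fun h' => h (Eq.symm h')),
          mul_zero]
    simp only [h1]
    by_cases h0 : S ω = 0
    · rw [h0, hc]
      refine Finset.sum_eq_zero fun v _ => ?_
      split_ifs <;> rfl
    · have hmem : S ω ∈ R := Finset.mem_filter.mpr ⟨S.mem_range_self ω, h0⟩
      rw [Finset.sum_eq_single (⟨S ω, hmem⟩ : R)]
      · rw [if_pos rfl]
      · intro v _ hv
        rw [if_neg fun h => hv (Subtype.ext h)]
      · exact fun h => absurd (Finset.mem_univ _) h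
  have hsum : ∀ c : (Fin m → ℝ) → ℝ, c 0 = 0 →
      ((∑ v : R, c v.1 • I v : Lp ℝ 1 μ) : Ω → ℝ) =ᵐ[μ] fun ω => c (S ω) := by
    intro c hc
    refine (sum_indicator_ae Finset.univ hAm hAμ fun v => c v.1).trans ?_
    exact Eventually.of_forall fun ω => hpt c hc ω
  -- the norm of such a sum
  have hnorm : ∀ c : (Fin m → ℝ) → ℝ, c 0 = 0 →
      ‖(∑ v : R, c v.1 • I v : Lp ℝ 1 μ)‖ = ∑ v : R, |c v.1| * μ.real (A v) := by
    intro c hc
    rw [L1.norm_eq_integral_norm]
    have h1 : ∫ ω, ‖(∑ v : R, c v.1 • I v : Lp ℝ 1 μ) ω‖ ∂μ = ∫ ω, |c (S ω)| ∂μ := by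
      refine integral_congr_ae ((hsum c hc).mono fun ω h => ?_)
      beta_reduce at h ⊢
      rw [h, Real.norm_eq_abs]
    rw [h1]
    have h2 : ∀ ω, |c (S ω)| = ∑ v : R, |c v.1| * (A v).indicator (fun _ => (1 : ℝ)) ω :=
      fun ω => (hpt (fun v => |c v|) (by rw [hc, abs_zero]) ω).symm
    simp only [h2]
    rw [integral_finsetSum]
    · refine Finset.sum_congr rfl fun v _ => ?_
      rw [integral_const_mul, integral_indicator_const _ (hAm v), smul_eq_mul, mul_one]
    · intro v _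
      exact ((integrableOn_const (hAμ v)).integrable_indicator (hAm v)).const_mul _
  -- the errors
  set D : Fin m → Lp ℝ 1 μ := fun j => U (φ j) - ∑ v : R, v.1 j • I v with hD
  have hDn : ∀ j, ‖D j‖ ≤ δ' := fun j => by
    rw [L1.norm_eq_integral_norm]
    refine le_trans ?_ hXS
    have h1 : (D j : Ω → ℝ) =ᵐ[μ] fun ω => X ω j - S ω j := by
      refine (Lp.coeFn_sub _ _).trans ?_
      filter_upwards [hsum (fun v => v j) rfl] with ω h
      rw [Pi.sub_apply, h]
    refine integral_mono_ae ?_ hXSint.norm ?_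
    · exact (L1.integrable_coeFn (D j)).norm
    · filter_upwards [h1] with ω h
      rw [h]
      exact norm_le_pi_norm (X ω - S ω) j
  have hδ'm : (m : ℝ) * δ' ≤ δ := by
    rw [hδ', mul_div_assoc', div_le_iff₀ (by positivity)]
    nlinarith
  have hδ'δ : δ' ≤ δ := by
    rw [hδ']
    exact div_le_self hδ.le (by linarith [show (0 : ℝ) ≤ m from Nat.cast_nonneg m])
  -- the functionals
  refine ⟨R, inferInstance, fun v => U.symm ((μ.real (A v))⁻¹ • I v),
    fun v j => μ.real (A v) * v.1 j, ?_, ?_, ?_⟩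
  · intro v
    rw [LinearIsometryEquiv.norm_map, norm_smul, hIn, norm_inv, Real.norm_eq_abs,
      abs_of_nonneg measureReal_nonneg]
    exact inv_mul_le_one
  · intro η hη
    set θ : Fin m → ℝ := fun j => if 0 ≤ ∑ v : R, η v * (μ.real (A v) * v.1 j) then 1 else -1
      with hθ
    have hθ1 : ∀ j, |θ j| ≤ 1 := fun j => by
      simp only [hθ]; split_ifs <;> norm_num
    have hθ2 : ∀ j, |∑ v : R, η v * (μ.real (A v) * v.1 j)| =
        θ j * ∑ v : R, η v * (μ.real (A v) * v.1 j) := fun j => by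
      simp only [hθ]
      split_ifs with h
      · rw [abs_of_nonneg h, one_mul]
      · rw [abs_of_neg (not_le.mp h), neg_one_mul]
    set c : (Fin m → ℝ) → ℝ := fun v => ∑ j, θ j * v j with hc
    have hc0 : c 0 = 0 := by simp [hc]
    calc ∑ j, |∑ v : R, η v * (μ.real (A v) * v.1 j)|
        = ∑ v : R, η v * (μ.real (A v) * c v.1) := by
          simp only [hθ2, Finset.mul_sum, hc]
          rw [Finset.sum_comm]
          refine Finset.sum_congr rfl fun v _ => Finset.sum_congr rfl fun j _ => by ring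
      _ ≤ ∑ v : R, |c v.1| * μ.real (A v) := Finset.sum_le_sum fun v _ => by
          have h1 : η v * (μ.real (A v) * c v.1) ≤ |η v * (μ.real (A v) * c v.1)| := le_abs_self _
          rw [abs_mul, abs_mul, abs_of_nonneg (measureReal_nonneg (μ := μ) (s := A v))] at h1
          refine h1.trans ?_
          rw [mul_comm (μ.real (A v))]
          exact mul_le_of_le_one_left (mul_nonneg (abs_nonneg _) measureReal_nonneg) (hη v)
      _ = ‖(∑ v : R, c v.1 • I v : Lp ℝ 1 μ)‖ := (hnorm c hc0).symm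
      _ ≤ 1 + δ := by
          have h1 : (∑ v : R, c v.1 • I v : Lp ℝ 1 μ) =
              U (∑ j, θ j • φ j) - ∑ j, θ j • D j := by
            simp only [hD, hc, map_sum, map_smul, smul_sub, Finset.sum_sub_distrib, sub_sub_cancel,
              Finset.smul_sum, Finset.sum_smul, smul_smul]
            rw [Finset.sum_comm]
          rw [h1]
          refine (norm_sub_le _ _).trans (add_le_add ?_ ?_)
          · rw [LinearIsometryEquiv.norm_map]
            exact norm_sum_smul_le hφ hθ1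
          · calc ‖∑ j, θ j • D j‖ ≤ ∑ j, ‖θ j • D j‖ := norm_sum_le _ _
              _ ≤ ∑ _j : Fin m, δ' := Finset.sum_le_sum fun j _ => by
                rw [norm_smul, Real.norm_eq_abs]
                exact (mul_le_of_le_one_left (norm_nonneg _) (hθ1 j)).trans (hDn j)
              _ = m * δ' := by
                rw [Finset.sum_const, Finset.card_univ, Fintype.card_fin, nsmul_eq_mul]
              _ ≤ δ := hδ'm
  · intro j
    have h1 : U (φ j - ∑ v : R, (μ.real (A v) * v.1 j) • U.symm ((μ.real (A v))⁻¹ • I v)) =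
        D j := by
      rw [map_sub, map_sum, hD]
      congr 1
      refine Finset.sum_congr rfl fun v _ => ?_
      rw [map_smul, LinearIsometryEquiv.apply_symm_apply, smul_smul]
      by_cases h0 : μ.real (A v) = 0
      · have h2 : I v = 0 := norm_eq_zero.mp ((hIn v).trans h0)
        rw [h2, smul_zero, smul_zero]
      · congr 1
        field_simp
    rw [← LinearIsometryEquiv.norm_map U, h1]
    exact (hDn j).trans hδ'δ

/-- The families for one element of the free Banach lattice. -/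
theorem exists_family (U : (E →L[ℝ] ℝ) ≃ₗᵢ[ℝ] Lp ℝ 1 μ) {f : H E} (hf : f ∈ FBLsub E)
    (hf1 : ‖f‖ = 1) {ε : ℝ} (hε : 0 < ε) : ∃ (Z : Finset E) (δ : ℝ), 0 < δ ∧
      ∀ x : E, ExtProp x (Z : Set E) δ → ∃ (m : ℕ) (y : Fin m → Dual' E) (σ : Fin m → ℝ),
        (∀ j, σ j = 1 ∨ σ j = -1) ∧ (∀ z : E, ‖z‖ ≤ 1 → ∑ j, |y j z| ≤ 1 + ε) ∧
        2 - ε ≤ ∑ j, (σ j * f (y j) + |y j x|) := by
  classical
  set e := min (ε / 16) (1 / 8) with he
  have he0 : 0 < e := by positivity
  have he1 : e ≤ ε / 16 := min_le_left _ _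
  have he2 : e ≤ 1 / 8 := min_le_right _ _
  obtain ⟨g, hg, hfg⟩ := exists_approx hf he0
  obtain ⟨Z, C, hC, hlip⟩ := exists_lip hg
  have hgn1 : 1 - e < ‖g‖ := by
    have := norm_sub_norm_le f g
    rw [hf1] at this
    linarith
  have hgn2 : ‖g‖ ≤ 1 + e := by
    have := norm_sub_norm_le g f
    rw [hf1, norm_sub_rev] at this
    linarith
  obtain ⟨m, φ, hφ, hs⟩ := H.exists_lt (f := g) (C := 1 - 2 * e) (by linarith)
  -- a point where the family is large
  obtain ⟨z0, hz0, hz0s⟩ : ∃ z0 : E, ‖z0‖ ≤ 1 ∧ 1 - 4 * e < ∑ j, |φ j z0| := by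
    by_contra hcon
    push Not at hcon
    have h1 := g.sum_le_of_adm_mul (c := 1 - 4 * e) (by linarith) hcon
    have h2 : (1 - 4 * e) * ‖g‖ ≤ (1 - 4 * e) * (1 + e) :=
      mul_le_mul_of_nonneg_left hgn2 (by linarith)
    nlinarith
  set N := ∑ z ∈ Z, ‖z‖ with hN
  have hN0 : 0 ≤ N := Finset.sum_nonneg fun _ _ => norm_nonneg _
  obtain ⟨δ, hδ0, hδ1, hδ2, hδ3⟩ : ∃ δ : ℝ, 0 < δ ∧ m * δ ≤ e ∧
      m * (C * (2 * δ * N)) ≤ e ∧ δ ≤ e := by
    have h1 : ∀ K : ℝ, ∀ᶠ δ : ℝ in 𝓝[>] 0, K * δ ≤ e := fun K => by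
      have h2 : Tendsto (fun δ : ℝ => K * δ) (𝓝[>] 0) (𝓝 (K * 0)) :=
        (tendsto_id.mono_left nhdsWithin_le_nhds).const_mul _
      rw [mul_zero] at h2
      exact h2.eventually_le_const he0
    obtain ⟨δ, h2, h3, h4, h5⟩ := ((h1 m).and ((h1 (m * (C * (2 * N)))).and
      ((h1 1).and self_mem_nhdsWithin))).exists
    refine ⟨δ, h5, h2, ?_, by linarith⟩
    have : m * (C * (2 * δ * N)) = m * (C * (2 * N)) * δ := by ring
    rw [this]
    exact h3
  refine ⟨Z, δ, hδ0, fun x hx => ?_⟩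
  obtain ⟨ι, _, G, w, hG, hw, hrep⟩ := exists_rep U hφ hδ0
  have hη : ∀ v, |G v z0| ≤ 1 := fun v => by
    have h1 := (G v).le_opNorm z0
    exact h1.trans (mul_le_one₀ (hG v) (norm_nonneg _) hz0)
  have hh : ∀ v, ∃ h : E →L[ℝ] ℝ, ‖h‖ ≤ 1 ∧ (∀ z ∈ (Z : Set E), h z = ((1 - δ) • G v) z) ∧
      h x = (1 - δ) * G v z0 := fun v => by
    refine hx ((1 - δ) • G v) ((1 - δ) * G v z0) ?_ ?_
    · rw [norm_smul, Real.norm_eq_abs, abs_of_nonneg (by linarith)]
      exact mul_le_of_le_one_right (by linarith) (hG v)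
    · rw [abs_mul, abs_of_nonneg (show 0 ≤ 1 - δ by linarith)]
      exact mul_le_of_le_one_right (by linarith) (hη v)
  choose h hh1 hh2 hh3 using hh
  set y : Fin m → Dual' E := fun j => ∑ v, w v j • h v with hy
  have hyapp : ∀ j z, y j z = ∑ v, h v z * w v j := fun j z => by
    simp only [hy, _root_.sum_apply, _root_.smul_apply, smul_eq_mul]
    exact Finset.sum_congr rfl fun v _ => mul_comm _ _
  have hRapp : ∀ j z, (∑ v, w v j • G v) z = ∑ v, G v z * w v j := fun j z => by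
    simp only [_root_.sum_apply, _root_.smul_apply, smul_eq_mul]
    exact Finset.sum_congr rfl fun v _ => mul_comm _ _
  have hadm : ∀ z : E, ‖z‖ ≤ 1 → ∑ j, |y j z| ≤ 1 + δ := fun z hz => by
    simp only [hyapp]
    refine hw _ fun v => ?_
    exact ((h v).le_opNorm z).trans (mul_le_one₀ (hh1 v) (norm_nonneg _) hz)
  -- the values at `x`
  have hyx : ∀ j, (1 - δ) * (|φ j z0| - δ) ≤ |y j x| := fun j => by
    have h1 : y j x = (1 - δ) * (∑ v, w v j • G v) z0 := by
      rw [hyapp, hRapp, Finset.mul_sum]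
      exact Finset.sum_congr rfl fun v _ => by rw [hh3 v]; ring
    rw [h1, abs_mul, abs_of_nonneg (show 0 ≤ 1 - δ by linarith)]
    refine mul_le_mul_of_nonneg_left ?_ (by linarith)
    have h2 : |(φ j - ∑ v, w v j • G v) z0| ≤ δ := by
      refine ((φ j - ∑ v, w v j • G v).le_opNorm z0).trans ?_
      exact (mul_le_of_le_one_right (norm_nonneg _) hz0).trans (hrep j)
    rw [_root_.sub_apply] at h2
    have h3 := abs_sub_abs_le_abs_sub (φ j z0) ((∑ v, w v j • G v) z0)
    linarith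
  have hyx' : 1 - 6 * e ≤ ∑ j, |y j x| := by
    have h1 : (1 - δ) * (∑ j, |φ j z0| - m * δ) ≤ ∑ j, |y j x| := by
      have h2 := Finset.sum_le_sum fun j (_ : j ∈ Finset.univ) => hyx j
      rw [← Finset.mul_sum, Finset.sum_sub_distrib, Finset.sum_const, Finset.card_univ,
        Fintype.card_fin, nsmul_eq_mul] at h2
      exact h2
    refine le_trans ?_ h1
    have h2 : (1 - e) * (1 - 5 * e) ≤ (1 - δ) * (∑ j, |φ j z0| - m * δ) :=
      mul_le_mul (by linarith) (by linarith) (by linarith) (by linarith)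
    nlinarith
  -- the values on `Z`
  have hyZ : ∀ j, |g (y j) - g (φ j)| ≤ C * (2 * δ * N) := fun j => by
    refine (hlip _ _).trans (mul_le_mul_of_nonneg_left ?_ hC)
    rw [hN, Finset.mul_sum]
    refine Finset.sum_le_sum fun z hz => ?_
    have h1 : y j z = (1 - δ) * (∑ v, w v j • G v) z := by
      rw [hyapp, hRapp, Finset.mul_sum]
      refine Finset.sum_congr rfl fun v _ => ?_
      rw [hh2 v z (Finset.mem_coe.mpr hz), _root_.smul_apply, smul_eq_mul]
      ring
    have h2 : |φ j z - (∑ v, w v j • G v) z| ≤ δ * ‖z‖ := by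
      rw [← _root_.sub_apply]
      exact ((φ j - ∑ v, w v j • G v).le_opNorm z).trans
        (mul_le_mul_of_nonneg_right (hrep j) (norm_nonneg _))
    have h3 : |φ j z| ≤ ‖z‖ := by
      refine ((φ j).le_opNorm z).trans ?_
      exact mul_le_of_le_one_left (norm_nonneg _) (Adm.norm_le_one hφ j)
    have h4 : y j z - φ j z = -((1 - δ) * (φ j z - (∑ v, w v j • G v) z)) + -(δ * φ j z) := by
      rw [h1]; ring
    rw [h4]
    refine (abs_add_le _ _).trans ?_
    rw [abs_neg, abs_neg, abs_mul, abs_mul, abs_of_nonneg (show 0 ≤ 1 - δ by linarith),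
      abs_of_pos hδ0]
    have h5 : 0 ≤ |φ j z - (∑ v, w v j • G v) z| := abs_nonneg _
    nlinarith
  -- signs
  set σ : Fin m → ℝ := fun j => if 0 ≤ g (φ j) then 1 else -1 with hσ
  have hσ1 : ∀ j, σ j = 1 ∨ σ j = -1 := fun j => by
    simp only [hσ]; split_ifs
    · exact Or.inl rfl
    · exact Or.inr rfl
  have hσa : ∀ j, |σ j| = 1 := fun j => by rcases hσ1 j with h | h <;> rw [h] <;> norm_num
  have hσg : ∀ j, σ j * g (φ j) = |g (φ j)| := fun j => by
    simp only [hσ]; split_ifs with h1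
    · rw [one_mul, abs_of_nonneg h1]
    · rw [abs_of_neg (not_le.mp h1), neg_one_mul]
  refine ⟨m, y, σ, hσ1, fun z hz => (hadm z hz).trans (by linarith), ?_⟩
  have h1 : ∑ j, |g (φ j)| - e ≤ ∑ j, σ j * g (y j) := by
    have h2 : ∀ j, |g (φ j)| - C * (2 * δ * N) ≤ σ j * g (y j) := fun j => by
      have h3 : σ j * g (y j) = |g (φ j)| + σ j * (g (y j) - g (φ j)) := by
        rw [← hσg j]; ring
      have h4 : |σ j * (g (y j) - g (φ j))| ≤ C * (2 * δ * N) := by
        rw [abs_mul, hσa, one_mul]; exact hyZ j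
      have h5 := (abs_le.mp h4).1
      linarith
    have h3 := Finset.sum_le_sum fun j (_ : j ∈ Finset.univ) => h2 j
    rw [Finset.sum_sub_distrib, Finset.sum_const, Finset.card_univ, Fintype.card_fin,
      nsmul_eq_mul] at h3
    linarith
  have h2 : ∑ j, σ j * g (y j) - 2 * e ≤ ∑ j, σ j * f (y j) := by
    have h3 : ∑ j, |(f - g) (y j)| ≤ (1 + δ) * ‖f - g‖ :=
      (f - g).sum_le_of_adm_mul (by linarith) hadm
    have h4 : (1 + δ) * ‖f - g‖ ≤ 2 * e := by nlinarith [norm_nonneg (f - g)]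
    have h5 : ∑ j, σ j * g (y j) - ∑ j, σ j * f (y j) ≤ ∑ j, |(f - g) (y j)| := by
      rw [← Finset.sum_sub_distrib]
      refine Finset.sum_le_sum fun j _ => ?_
      have h6 : σ j * g (y j) - σ j * f (y j) = -(σ j * (f - g) (y j)) := by
        rw [H.sub_apply]; ring
      rw [h6]
      refine (neg_le_abs _).trans ?_
      rw [abs_mul, hσa, one_mul]
    linarith
  rw [Finset.sum_add_distrib]
  linarith

end Rep

/-! ### Signs -/

section Signs

variable {E : Type*} [NormedAddCommGroup E] [NormedSpace ℝ E]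

/-- The elementary piece. -/
def piece (x x' : E) (K r : ℝ) : H E :=
  hsup (habs (delta x) - K • habs (delta (x' - r • x))) 0

theorem piece_apply (x x' : E) (K r : ℝ) (φ : Dual' E) :
    piece x x' K r φ = max (|φ x| - K * |φ x' - r * φ x|) 0 := by
  simp only [piece, hsup_apply, H.sub_apply, H.smul_apply, habs_apply, delta_apply, H.zero_apply,
    map_sub, map_smul, smul_eq_mul]

theorem piece_mem (x x' : E) (K r : ℝ) : piece x x' K r ∈ FBLsub E :=
  sublattice_le (hsup_mem (Submodule.sub_mem _ (habs_mem (delta_mem _))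
    (Submodule.smul_mem _ _ (habs_mem (delta_mem _)))) (Submodule.zero_mem _))

/-- An element of the free Banach lattice, dominated by `|δ_x|`, with prescribed signs at
perturbations of given functionals. -/
theorem exists_signs {x x' : E} {χ : Dual' E} (hχ : χ x = 0) (hχ' : χ x' = 1) {I : Type}
    [Fintype I] (y : I → Dual' E) (σ : I → ℝ) (hσ : ∀ k, σ k = 1 ∨ σ k = -1) {ρ : ℝ}
    (hρ : 0 < ρ) : ∃ (g : H E) (ψ : I → Dual' E), g ∈ FBLsub E ∧ (∀ φ, |g φ| ≤ |φ x|) ∧
      (∀ k, ‖ψ k - y k‖ ≤ ρ) ∧ (∀ k, ψ k x = y k x) ∧ ∀ k, g (ψ k) = σ k * |y k x| := by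
  classical
  -- labels
  let lab : I → ℝ := fun k => (Fintype.equivFin I k : ℕ)
  have hlab : ∀ k l, k ≠ l → lab k ≠ lab l := fun k l hkl h => hkl (by
    have h1 : ((Fintype.equivFin I k : ℕ) : ℝ) = ((Fintype.equivFin I l : ℕ) : ℝ) := h
    have h2 : (Fintype.equivFin I k : ℕ) = (Fintype.equivFin I l : ℕ) := by exact_mod_cast h1
    exact (Fintype.equivFin I).injective (Fin.ext h2))
  set t : I → ℝ := fun k => y k x' / y k x with ht
  -- a small parameter
  have hev1 : ∀ᶠ s : ℝ in 𝓝[>] 0, ∀ k, ‖(s * (lab k * y k x)) • χ‖ ≤ ρ := by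
    rw [Filter.eventually_all]
    intro k
    have h2 : Tendsto (fun s : ℝ => ‖(s * (lab k * y k x)) • χ‖) (𝓝[>] 0)
        (𝓝 ‖((0 : ℝ) * (lab k * y k x)) • χ‖) :=
      (((tendsto_id.mono_left nhdsWithin_le_nhds).mul_const _).smul_const _).norm
    rw [zero_mul, zero_smul, norm_zero] at h2
    exact h2.eventually_le_const hρ
  have hev2 : ∀ᶠ s : ℝ in 𝓝[>] 0, ∀ k l, k ≠ l → t k + s * lab k ≠ t l + s * lab l := by
    rw [Filter.eventually_all]
    intro k
    rw [Filter.eventually_all]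
    intro l
    by_cases hkl : k = l
    · exact Eventually.of_forall fun s h => absurd hkl h
    · by_cases htt : t k = t l
      · filter_upwards [self_mem_nhdsWithin] with s hs _ h
        rw [htt] at h
        have h1 : s * lab k = s * lab l := by linarith
        exact hlab k l hkl (mul_left_cancel₀ (ne_of_gt hs) h1)
      · have h2 : Tendsto (fun s : ℝ => (t k + s * lab k) - (t l + s * lab l)) (𝓝[>] 0)
            (𝓝 ((t k + 0 * lab k) - (t l + 0 * lab l))) := by
          have h3 : Tendsto (fun s : ℝ => s) (𝓝[>] 0) (𝓝 0) :=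
            tendsto_id.mono_left nhdsWithin_le_nhds
          exact ((h3.mul_const _).const_add _).sub ((h3.mul_const _).const_add _)
        have h4 : (t k + 0 * lab k) - (t l + 0 * lab l) ≠ 0 := by
          rw [zero_mul, zero_mul, add_zero, add_zero]
          exact sub_ne_zero.mpr htt
        filter_upwards [h2.eventually_ne h4] with s hs _ h
        exact hs (sub_eq_zero.mpr h)
  obtain ⟨s, hs1, hs2⟩ := (hev1.and hev2).exists
  set r : I → ℝ := fun k => t k + s * lab k with hr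
  set ψ : I → Dual' E := fun k => y k + (s * (lab k * y k x)) • χ with hψ
  have hψx : ∀ k, ψ k x = y k x := fun k => by
    simp only [hψ, _root_.add_apply, _root_.smul_apply, hχ, smul_zero, add_zero]
  have hψx' : ∀ k, y k x ≠ 0 → ψ k x' = r k * ψ k x := fun k hk => by
    rw [hψx]
    simp only [hψ, hr, ht, _root_.add_apply, _root_.smul_apply, hχ', smul_eq_mul, mul_one]
    field_simp
  -- the parameter `K`
  have hevK : ∀ᶠ K : ℝ in atTop, ∀ k l, k ≠ l → 2 ≤ K * |r k - r l| := by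
    rw [Filter.eventually_all]
    intro k
    rw [Filter.eventually_all]
    intro l
    by_cases hkl : k = l
    · exact Eventually.of_forall fun s h => absurd hkl h
    · have h1 : 0 < |r k - r l| := abs_pos.mpr (sub_ne_zero.mpr (hs2 k l hkl))
      exact ((tendsto_id.atTop_mul_const h1).eventually_ge_atTop _).mono fun K h _ => h
  obtain ⟨K, hK1, hK0⟩ := (hevK.and (eventually_ge_atTop 0)).exists
  -- disjointness
  have hdisj : ∀ φ : Dual' E, ∀ k l, k ≠ l → piece x x' K (r k) φ = 0 ∨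
      piece x x' K (r l) φ = 0 := by
    intro φ k l hkl
    rw [piece_apply, piece_apply]
    by_contra hcon
    push Not at hcon
    have h1 : K * |φ x' - r k * φ x| < |φ x| := by
      by_contra h
      exact hcon.1 (max_eq_right (by linarith))
    have h2 : K * |φ x' - r l * φ x| < |φ x| := by
      by_contra h
      exact hcon.2 (max_eq_right (by linarith))
    have h3 : |r k - r l| * |φ x| ≤ |φ x' - r k * φ x| + |φ x' - r l * φ x| := by
      rw [← abs_mul]
      have h4 : (r k - r l) * φ x = -(φ x' - r k * φ x) + (φ x' - r l * φ x) := by ring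
      rw [h4]
      refine (abs_add_le _ _).trans ?_
      rw [abs_neg]
    have h5 := hK1 k l hkl
    have h6 : K * (|r k - r l| * |φ x|) ≤
        K * (|φ x' - r k * φ x| + |φ x' - r l * φ x|) := mul_le_mul_of_nonneg_left h3 hK0
    have h7 : 2 * |φ x| ≤ K * |r k - r l| * |φ x| :=
      mul_le_mul_of_nonneg_right h5 (abs_nonneg _)
    nlinarith
  have hpiece : ∀ φ : Dual' E, ∀ k, 0 ≤ piece x x' K (r k) φ ∧
      piece x x' K (r k) φ ≤ |φ x| := fun φ k => by
    rw [piece_apply]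
    refine ⟨le_max_right _ _, max_le ?_ (abs_nonneg _)⟩
    have : 0 ≤ K * |φ x' - r k * φ x| := by positivity
    linarith
  set g : H E := ∑ k, σ k • piece x x' K (r k) with hg
  have hgapp : ∀ φ, g φ = ∑ k, σ k * piece x x' K (r k) φ := fun φ =>
    H.finset_sum_apply _ _ _
  have hσa : ∀ k, |σ k| = 1 := fun k => by rcases hσ k with h | h <;> rw [h] <;> norm_num
  have hgle : ∀ φ, |g φ| ≤ |φ x| := fun φ => by
    rw [hgapp]
    by_cases hex : ∃ k0, piece x x' K (r k0) φ ≠ 0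
    · obtain ⟨k0, hk0⟩ := hex
      rw [Finset.sum_eq_single k0]
      · rw [abs_mul, hσa, one_mul, abs_of_nonneg (hpiece φ k0).1]
        exact (hpiece φ k0).2
      · intro k _ hk
        rcases hdisj φ k k0 hk with h | h
        · rw [h, mul_zero]
        · exact absurd h hk0
      · exact fun h => absurd (Finset.mem_univ _) h
    · push Not at hex
      rw [Finset.sum_eq_zero fun k _ => by rw [hex k, mul_zero], abs_zero]
      exact abs_nonneg _
  refine ⟨g, ψ, ?_, hgle, fun k => ?_, hψx, fun k => ?_⟩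
  · exact Submodule.sum_mem _ fun k _ => Submodule.smul_mem _ _ (piece_mem _ _ _ _)
  · simp only [hψ, add_sub_cancel_left]
    exact hs1 k
  · by_cases hk : y k x = 0
    · have h1 := hgle (ψ k)
      rw [hψx, hk, abs_zero] at h1
      rw [hk, abs_zero, mul_zero]
      exact abs_eq_zero.mp (le_antisymm h1 (abs_nonneg _))
    · have hval : piece x x' K (r k) (ψ k) = |y k x| := by
        rw [piece_apply, hψx' k hk, sub_self, abs_zero, mul_zero, sub_zero, hψx]
        exact max_eq_left (abs_nonneg _)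
      rw [hgapp, Finset.sum_eq_single k]
      · rw [hval]
      · intro l _ hl
        rcases hdisj (ψ k) l k hl with h | h
        · rw [h, mul_zero]
        · rw [hval] at h
          exact absurd (abs_eq_zero.mp h) hk
      · exact fun h => absurd (Finset.mem_univ _) h

end Signs

section Main

variable {E : Type*} [NormedAddCommGroup E] [NormedSpace ℝ E]

theorem norm_delta_le (x : E) (hx : ‖x‖ ≤ 1) : ‖delta x‖ ≤ 1 :=
  H.norm_le fun _ _ hφ => hφ x hx

theorem one_le_norm_delta {x : E} (hx : ‖x‖ = 1) : 1 ≤ ‖delta x‖ := by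
  obtain ⟨φ, hφ, hφx⟩ := exists_dual_vector ℝ x (by rw [hx]; exact one_ne_zero)
  have h1 := (delta x).abs_apply_le φ
  have h2 : φ x = 1 := by
    have h3 : φ x = ‖x‖ := hφx
    rw [h3, hx]
  rw [delta_apply, hφ, mul_one, h2, abs_one] at h1
  exact h1

theorem finOcta_FBL {Ω : Type*} [MeasurableSpace Ω] {μ : Measure Ω}
    (U : (E →L[ℝ] ℝ) ≃ₗᵢ[ℝ] Lp ℝ 1 μ) (hE : Octahedral E) : FinOcta (FBL E) := by
  classical
  intro n f hf ε hε
  set e := ε / 8 with he
  have he0 : 0 < e := by positivity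
  choose Z δ hδ0 hfam using fun i => exists_family U (f i).2 (hf i) he0
  obtain ⟨d, hd, hd0⟩ : ∃ d : ℝ, (∀ i, d ≤ δ i) ∧ 0 < d := by
    have h1 : ∀ᶠ d : ℝ in 𝓝[>] 0, ∀ i, d ≤ δ i := by
      rw [Filter.eventually_all]
      intro i
      have h2 : Tendsto (fun d : ℝ => d) (𝓝[>] 0) (𝓝 0) :=
        tendsto_id.mono_left nhdsWithin_le_nhds
      exact h2.eventually_le_const (hδ0 i)
    obtain ⟨d, h2, h3⟩ := (h1.and self_mem_nhdsWithin).exists
    exact ⟨d, h2, h3⟩
  obtain ⟨x, hx, hxe⟩ := hE.exists_extProp (Finset.univ.biUnion Z) hd0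
  have hxi : ∀ i, ExtProp x (Z i : Set E) (δ i) := fun i =>
    hxe.mono (by
      intro z hz
      exact Finset.mem_coe.mpr (Finset.mem_biUnion.mpr ⟨i, Finset.mem_univ i, hz⟩)) (hd i)
  choose m y σ hσ hy hs using fun i => hfam i x (hxi i)
  -- the second vector
  obtain ⟨x', -, hx'⟩ := hE.exists_extProp {x} (show (0 : ℝ) < 1 / 2 by norm_num)
  obtain ⟨h0, -, h01, h02⟩ := hx' 0 (1 / 2) (by rw [norm_zero]; norm_num)
    (by rw [abs_of_pos] <;> norm_num)
  have hχ : ((2 : ℝ) • h0) x = 0 := by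
    rw [_root_.smul_apply, h01 x (by simp), _root_.zero_apply, smul_zero]
  have hχ' : ((2 : ℝ) • h0) x' = 1 := by
    rw [_root_.smul_apply, h02, smul_eq_mul]; norm_num
  -- the size of the perturbation
  obtain ⟨ρ, hρ0, hρ1, hρ2⟩ : ∃ ρ : ℝ, 0 < ρ ∧ (∀ i, m i * ρ ≤ e) ∧
      ∀ i j, ∀ q, ‖q - y i j‖ ≤ ρ →
        |(f i : H E) q - (f i : H E) (y i j)| ≤ e / (m i + 1) := by
    have h1 : ∀ᶠ ρ : ℝ in 𝓝[>] 0, ∀ i, m i * ρ ≤ e := by
      rw [Filter.eventually_all]
      intro i
      have h2 : Tendsto (fun ρ : ℝ => m i * ρ) (𝓝[>] 0) (𝓝 (m i * 0)) :=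
        (tendsto_id.mono_left nhdsWithin_le_nhds).const_mul _
      rw [mul_zero] at h2
      exact h2.eventually_le_const he0
    have h3 : ∀ᶠ ρ : ℝ in 𝓝[>] 0, ∀ i j, ∀ q, ‖q - y i j‖ ≤ ρ →
        |(f i : H E) q - (f i : H E) (y i j)| ≤ e / (m i + 1) := by
      rw [Filter.eventually_all]
      intro i
      rw [Filter.eventually_all]
      intro j
      obtain ⟨τ, hτ, h4⟩ := Metric.continuous_iff.mp (continuous_of_mem (f i).2) (y i j)
        (e / (m i + 1)) (by positivity)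
      have h5 : Tendsto (fun ρ : ℝ => ρ) (𝓝[>] 0) (𝓝 0) :=
        tendsto_id.mono_left nhdsWithin_le_nhds
      filter_upwards [h5.eventually_lt_const hτ] with ρ hρ q hq
      have h6 := h4 q (by rw [dist_eq_norm]; exact hq.trans_lt hρ)
      rw [Real.dist_eq] at h6
      exact h6.le
    obtain ⟨ρ, h4, h5, h6⟩ := (h1.and (h3.and self_mem_nhdsWithin)).exists
    exact ⟨ρ, h6, h4, h5⟩
  obtain ⟨g, ψ, hg, hgle, hψ1, hψ2, hψ3⟩ := exists_signs (x := x) (x' := x') hχ hχ'
    (I := Σ i : Fin n, Fin (m i)) (fun k => y k.1 k.2) (fun k => σ k.1 k.2)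
    (fun k => hσ k.1 k.2) hρ0
  refine ⟨⟨g, hg⟩, ?_, fun i => ?_⟩
  · have h1 : ‖(⟨g, hg⟩ : FBL E)‖ = ‖g‖ := rfl
    rw [h1]
    exact (norm_mono fun φ => by rw [delta_apply]; exact hgle φ).trans (norm_delta_le x hx.le)
  · have h1 : ‖f i + ⟨g, hg⟩‖ = ‖(f i : H E) + g‖ := rfl
    rw [h1]
    have hmi : (0 : ℝ) < m i + 1 := by positivity
    -- the family is almost admissible
    have hadm : ∀ z : E, ‖z‖ ≤ 1 → ∑ j, |ψ ⟨i, j⟩ z| ≤ 1 + 2 * e := fun z hz => by
      have h2 : ∀ j, |ψ ⟨i, j⟩ z| ≤ |y i j z| + ρ := fun j => by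
        have h3 : ψ ⟨i, j⟩ z = y i j z + (ψ ⟨i, j⟩ - y i j) z := by
          rw [_root_.sub_apply]; ring
        rw [h3]
        refine (abs_add_le _ _).trans (add_le_add le_rfl ?_)
        refine ((ψ ⟨i, j⟩ - y i j).le_opNorm z).trans ?_
        exact (mul_le_of_le_one_right (norm_nonneg _) hz).trans (hψ1 ⟨i, j⟩)
      have h3 := Finset.sum_le_sum fun j (_ : j ∈ Finset.univ) => h2 j
      rw [Finset.sum_add_distrib, Finset.sum_const, Finset.card_univ, Fintype.card_fin,
        nsmul_eq_mul] at h3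
      linarith [hy i z hz, hρ1 i]
    have h2 := ((f i : H E) + g).sum_le_of_adm_mul (by linarith) hadm
    -- the lower estimate
    have h3 : ∀ j, σ i j * (f i : H E) (y i j) + |y i j x| - e / (m i + 1) ≤
        |((f i : H E) + g) (ψ ⟨i, j⟩)| := fun j => by
      have h4 := hρ2 i j (ψ ⟨i, j⟩) (hψ1 ⟨i, j⟩)
      have h5 : g (ψ ⟨i, j⟩) = σ i j * |y i j x| := hψ3 ⟨i, j⟩
      have h6 : σ i j * σ i j = 1 := by rcases hσ i j with h | h <;> rw [h] <;> norm_num
      have h7 : |σ i j| = 1 := by rcases hσ i j with h | h <;> rw [h] <;> norm_num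
      have h8 : |((f i : H E) + g) (ψ ⟨i, j⟩)| = |σ i j * ((f i : H E) + g) (ψ ⟨i, j⟩)| := by
        rw [abs_mul, h7, one_mul]
      rw [h8]
      refine le_trans ?_ (le_abs_self _)
      rw [H.add_apply, h5]
      have h9 : σ i j * ((f i : H E) (ψ ⟨i, j⟩) + σ i j * |y i j x|) =
          σ i j * (f i : H E) (y i j) + (σ i j * σ i j) * |y i j x| +
            σ i j * ((f i : H E) (ψ ⟨i, j⟩) - (f i : H E) (y i j)) := by ring
      rw [h9, h6, one_mul]
      have h10 : |σ i j * ((f i : H E) (ψ ⟨i, j⟩) - (f i : H E) (y i j))| ≤ e / (m i + 1) := by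
        rw [abs_mul, h7, one_mul]; exact h4
      linarith [(abs_le.mp h10).1]
    have h4 := Finset.sum_le_sum fun j (_ : j ∈ Finset.univ) => h3 j
    rw [Finset.sum_sub_distrib, Finset.sum_const, Finset.card_univ, Fintype.card_fin,
      nsmul_eq_mul] at h4
    have h5 : (m i : ℝ) * (e / (m i + 1)) ≤ e := by
      rw [mul_div_assoc', div_le_iff₀ hmi]
      nlinarith
    have h6 := hs i
    have h7 : 2 - 2 * e ≤ (1 + 2 * e) * ‖(f i : H E) + g‖ := by linarith
    by_contra hcon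
    push Not at hcon
    have h8 : (1 + 2 * e) * ‖(f i : H E) + g‖ < (1 + 2 * e) * (2 - ε) :=
      mul_lt_mul_of_pos_left hcon (by linarith)
    nlinarith

end Main

universe u v

/-- Let `E` be a nonzero Banach space with the Daugavet property whose dual is isometric to
`L_1(μ)`. Then the norm of the free Banach lattice generated by `E` is octahedral. -/
theorem result (E : Type u) [NormedAddCommGroup E] [NormedSpace ℝ E] [CompleteSpace E]
    [Nontrivial E] {Ω : Type v} [MeasurableSpace Ω] (μ : Measure Ω)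
    (U : (E →L[ℝ] ℝ) ≃ₗᵢ[ℝ] Lp ℝ 1 μ) (hE : Daugavet E) : Octahedral (FBL E) := by
  obtain ⟨x, hx⟩ := exists_ne (0 : E)
  have hx1 : ‖‖x‖⁻¹ • x‖ = 1 := exists_unit_of_ne hx
  have hoct : Octahedral E := hE.finOcta.octahedral hx1
  refine (finOcta_FBL U hoct).octahedral
    (x0 := ⟨delta (‖x‖⁻¹ • x), sublattice_le (delta_mem _)⟩) ?_
  exact le_antisymm (norm_delta_le _ hx1.le) (one_le_norm_delta hx1)

end Pool.Agent.Results.MP_93c18e_an.Predual
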